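import Pool.Agent.Helper17.RS.Sheet

/-! # Row LIFT of `Helper17/RS/Sheet.lean` -/

set_option autoImplicit false

namespace Pool.Helper17.RS

open Polynomial

theorem map_FA {R S : Type*} [CommRing R] [CommRing S] (f : R →+* S) (a b c : R) :
    f (FA a b c) = FA (f a) (f b) (f c) := by
  simp only [FA, map_sub, map_mul, map_add, map_pow, map_ofNat]

theorem map_FB {R S : Type*} [CommRing R] [CommRing S] (f : R →+* S) (a b c : R) :
    f (FB a b c) = FB (f a) (f b) (f c) := by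
  simp only [FB, map_sub, map_mul, map_add, map_pow, map_ofNat]

theorem map_JJ {R S : Type*} [CommRing R] [CommRing S] (f : R →+* S) (a b c : R) :
    f (JJ a b c) = JJ (f a) (f b) (f c) := by
  simp only [JJ, map_sub, map_mul, map_add, map_pow, map_ofNat]

theorem prod_mod (τ : Fin 20 → ℤ) (hτ : ∀ i, (13 : ℤ) ∣ τ i) (s : Finset (Fin 20)) :
    ∃ g : ℤ[X], ∏ i ∈ s, (X - C (τ i)) = X ^ s.card + 13 * g := by
  induction s using Finset.induction_on with
  | empty => exact ⟨0, by simp⟩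
  | insert i s hi ih =>
    obtain ⟨g, hg⟩ := ih
    obtain ⟨k, hk⟩ := hτ i
    have hC : (C (τ i) : ℤ[X]) = 13 * C k := by
      rw [hk, C_mul]
      rfl
    refine ⟨(X - C (τ i)) * g - C k * X ^ s.card, ?_⟩
    rw [Finset.prod_insert hi, hg, Finset.card_insert_of_notMem hi, hC]
    ring

theorem st_LIFT (hH : ST_HEN) (hS : ST_SER) : ST_LIFT := by
  intro τ hτ α β hα hβ m hm
  obtain ⟨g0, hg0⟩ := prod_mod τ hτ Finset.univ
  rw [Finset.card_univ, Fintype.card_fin] at hg0
  set n : ℤ[X] := ∏ i, (X - C (τ i)) with hndef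
  set q := Ideal.Quotient.mk (Ideal.span {n}) with hq
  have hn : q n = 0 := by
    rw [hq, Ideal.Quotient.eq_zero_iff_mem]
    exact Ideal.mem_span_singleton_self n
  have hX : q (X ^ 20) = -(13 * q g0) := by
    have e : q n = q (X ^ 20 + 13 * g0) := congrArg q hg0
    rw [hn, map_add, map_mul, map_ofNat] at e
    linear_combination -e
  obtain ⟨⟨g1, h1, e1⟩, ⟨g2, h2, e2⟩, d, ⟨g3, h3, e3⟩⟩ := hS
  obtain ⟨ka, hka⟩ := hα
  obtain ⟨kb', hkb⟩ := hβ
  have E1 : q (FA pa pb (11 + X)) - q (C (FA (4 : ℤ) 7 11)) =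
      13 * q g1 + q (X ^ 20) * q h1 := by
    rw [← map_sub, e1, map_add, map_mul, map_mul, map_ofNat]
  have E2 : q (FB pa pb (11 + X)) - q (C (FB (4 : ℤ) 7 11)) =
      13 * q g2 + q (X ^ 20) * q h2 := by
    rw [← map_sub, e2, map_add, map_mul, map_mul, map_ofNat]
  have E3 : q (d * JJ pa pb (11 + X)) - q 1 = 13 * q g3 + q (X ^ 20) * q h3 := by
    rw [← map_sub, e3, map_add, map_mul, map_mul, map_ofNat]
  rw [map_FA] at E1
  rw [map_FB] at E2
  rw [map_mul, map_JJ, map_one] at E3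
  have A1 : q (C α) = q (C (FA (4 : ℤ) 7 11)) + 13 * q (C ka) := by
    have : α = FA (4 : ℤ) 7 11 + 13 * ka := by linarith
    rw [this, C_add, C_mul, map_add, map_mul]
    have h13 : q (C (13 : ℤ)) = 13 := by
      have : (C (13 : ℤ) : ℤ[X]) = 13 := rfl
      rw [this, map_ofNat]
    rw [h13]
  have A2 : q (C β) = q (C (FB (4 : ℤ) 7 11)) + 13 * q (C kb') := by
    have : β = FB (4 : ℤ) 7 11 + 13 * kb' := by linarith
    rw [this, C_add, C_mul, map_add, map_mul]
    have h13 : q (C (13 : ℤ)) = 13 := by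
      have : (C (13 : ℤ) : ℤ[X]) = 13 := rfl
      rw [this, map_ofNat]
    rw [h13]
  obtain ⟨a', b', ha', hb', hA, hB⟩ := hH (ℤ[X] ⧸ Ideal.span {n}) (q pa) (q pb) (q (11 + X))
    (q (C α)) (q (C β)) 13 (q d)
    ⟨q g1 - q g0 * q h1 - q (C ka), by rw [A1]; linear_combination E1 + q h1 * hX⟩
    ⟨q g2 - q g0 * q h2 - q (C kb'), by rw [A2]; linear_combination E2 + q h2 * hX⟩
    ⟨q g3 - q g0 * q h3, by linear_combination E3 + q h3 * hX⟩ m hm
  obtain ⟨U, rfl⟩ := Ideal.Quotient.mk_surjective a'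
  obtain ⟨V, rfl⟩ := Ideal.Quotient.mk_surjective b'
  rw [← hq] at ha' hb' hA hB
  have key : ∀ P Q : ℤ[X], (13 : ℤ[X] ⧸ Ideal.span {n}) ∣ q P - q Q → Eq20 P Q := by
    intro P Q hPQ
    obtain ⟨r, hr⟩ := hPQ
    obtain ⟨r', rfl⟩ := Ideal.Quotient.mk_surjective r
    rw [← hq] at hr
    have h0 : q (P - Q - 13 * r') = 0 := by
      rw [map_sub, map_sub, map_mul, map_ofNat, hr]
      ring
    rw [hq, Ideal.Quotient.eq_zero_iff_mem, Ideal.mem_span_singleton] at h0
    obtain ⟨h, hh⟩ := h0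
    refine ⟨r' + g0 * h, h, ?_⟩
    rw [hg0] at hh
    linear_combination hh
  refine ⟨U, V, key U pa ha', key V pb hb', fun i => ?_⟩
  have hev : ∀ a ∈ Ideal.span {n}, evalRingHom (τ i) a = 0 := by
    intro a ha
    rw [Ideal.mem_span_singleton] at ha
    obtain ⟨k, rfl⟩ := ha
    rw [map_mul]
    have : evalRingHom (τ i) n = 0 := by
      rw [hndef, map_prod]
      exact Finset.prod_eq_zero (Finset.mem_univ i) (by simp)
    rw [this, zero_mul]
  set ev : (ℤ[X] ⧸ Ideal.span {n}) →+* ℤ := Ideal.Quotient.lift (Ideal.span {n})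
    (evalRingHom (τ i)) hev with hevd
  have evq : ∀ P : ℤ[X], ev (q P) = P.eval (τ i) := fun P => by
    rw [hevd, hq, Ideal.Quotient.lift_mk, coe_evalRingHom]
  have e11 : (11 + X : ℤ[X]).eval (τ i) = 11 + τ i := by
    rw [eval_add, eval_X]
    have : (11 : ℤ[X]) = C (11 : ℤ) := rfl
    rw [this, eval_C]
  constructor
  · have := map_dvd ev hA
    rw [map_pow, map_ofNat, map_sub, map_FA, evq, evq, evq, evq, eval_C, e11] at this
    exact this
  · have := map_dvd ev hB
    rw [map_pow, map_ofNat, map_sub, map_FB, evq, evq, evq, evq, eval_C, e11] at this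
    exact this

end Pool.Helper17.RS
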